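import Pool.Agent.Helper13.RS.St
import Pool.Agent.Helper60.GP.St

/-!
# Project RS: module WI (primes in a short window on the logarithmic scale)
-/

set_option autoImplicit false

namespace Pool.Agent.Helper80.RS

open Pool.Agent.Helper13.RS Finset

/-- **StWI** -/
theorem hWI (h : Pool.Agent.Helper60.GP.StM1) : StWI := by
  obtain ⟨C, hC⟩ := h
  have hC0 : 0 ≤ C := le_trans (abs_nonneg _) (hC 1 le_rfl)
  refine ⟨1 + 16 * C, by linarith, ?_⟩
  intro Z k i hZ hik hK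
  have hk : 1 ≤ k := by omega
  have hk1 : (1 : ℝ) ≤ k := by exact_mod_cast hk
  have hik' : (i : ℝ) + 1 ≤ k := by exact_mod_cast hik
  have hi0 : (0 : ℝ) ≤ i := Nat.cast_nonneg i
  have hZ0 : 0 < Z := by linarith
  have hL : 0 < Real.log Z := Real.log_pos hZ
  have hk2 : (0 : ℝ) < (k : ℝ) ^ 2 := by positivity
  have h4k : (0 : ℝ) < 4 * (k : ℝ) ^ 2 := by positivity
  set al : ℝ := 1 - (i : ℝ) / (4 * (k : ℝ) ^ 2) with hal
  set be : ℝ := 1 - ((i : ℝ) + 1) / (4 * (k : ℝ) ^ 2) with hbe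
  have hab : al - be = 1 / (4 * (k : ℝ) ^ 2) := by
    rw [hal, hbe]
    ring
  have hbe0 : 0 ≤ be := by
    rw [hbe]
    have : ((i : ℝ) + 1) / (4 * (k : ℝ) ^ 2) ≤ 1 := by
      rw [div_le_one h4k]
      nlinarith
    linarith
  have hal1 : al ≤ 1 := by
    rw [hal]
    have : 0 ≤ (i : ℝ) / (4 * (k : ℝ) ^ 2) := by positivity
    linarith
  have hbeal : be ≤ al := by
    have : 0 < 1 / (4 * (k : ℝ) ^ 2) := by positivity
    linarith
  set u : ℝ := Z ^ al with hu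
  set v : ℝ := Z ^ be with hv
  have hv1 : 1 ≤ v := Real.one_le_rpow hZ.le hbe0
  have hvu : v ≤ u := Real.rpow_le_rpow_of_exponent_le hZ.le hbeal
  have huZ : u ≤ Z := by
    have := Real.rpow_le_rpow_of_exponent_le hZ.le hal1
    rwa [Real.rpow_one] at this
  have hlu : Real.log u = al * Real.log Z := Real.log_rpow hZ0 _
  have hlv : Real.log v = be * Real.log Z := Real.log_rpow hZ0 _
  have h1 := hC u (le_trans hv1 hvu)
  have h2 := hC v hv1
  rw [abs_le] at h1 h2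
  have hsplit : ∑ p ∈ (Icc 1 ⌊u⌋₊).filter Nat.Prime, Real.log p / p =
      ∑ p ∈ (Icc 1 ⌊v⌋₊).filter Nat.Prime, Real.log p / p + ∑ p ∈ Pr v u, Real.log p / p := by
    rw [← Finset.sum_union]
    · apply Finset.sum_congr _ (fun _ _ => rfl)
      ext p
      unfold Pr
      simp only [mem_union, mem_filter, mem_Icc]
      constructor
      · rintro ⟨⟨ha, hb⟩, hp⟩
        by_cases hpv : (p : ℝ) ≤ v
        · exact Or.inl ⟨⟨ha, Nat.le_floor hpv⟩, hp⟩
        · exact Or.inr ⟨⟨ha, hb⟩, hp, not_le.mp hpv⟩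
      · rintro (⟨⟨ha, hb⟩, hp⟩ | ⟨⟨ha, hb⟩, hp, _⟩)
        · exact ⟨⟨ha, le_trans hb (Nat.floor_le_floor hvu)⟩, hp⟩
        · exact ⟨⟨ha, hb⟩, hp⟩
    · rw [Finset.disjoint_left]
      intro p hp hp'
      unfold Pr at hp'
      rw [mem_filter, mem_Icc] at hp hp'
      have h3 : (p : ℝ) ≤ v := le_trans (by exact_mod_cast hp.1.2) (Nat.floor_le (by linarith))
      exact absurd hp'.2.2 (not_lt.mpr h3)
  have hlow : Real.log Z / (4 * (k : ℝ) ^ 2) - 2 * C ≤ ∑ p ∈ Pr v u, Real.log p / p := by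
    have e : Real.log u - Real.log v = Real.log Z / (4 * (k : ℝ) ^ 2) := by
      rw [hlu, hlv, ← sub_mul, hab]
      ring
    linarith [h1.1, h2.2, hsplit]
  have hup : ∑ p ∈ Pr v u, Real.log p / p ≤ Real.log Z * ∑ p ∈ Pr v u, 1 / (p : ℝ) := by
    rw [Finset.mul_sum]
    apply Finset.sum_le_sum
    intro p hp
    unfold Pr at hp
    rw [mem_filter, mem_Icc] at hp
    have hp0 : (0 : ℝ) < p := by exact_mod_cast hp.2.1.pos
    have hpu : (p : ℝ) ≤ u := le_trans (by exact_mod_cast hp.1.2) (Nat.floor_le (by linarith))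
    have hlp : Real.log p ≤ Real.log Z := Real.log_le_log hp0 (le_trans hpu huZ)
    rw [mul_one_div]
    exact div_le_div_of_nonneg_right hlp hp0.le
  have hKC : 2 * C ≤ Real.log Z / (8 * (k : ℝ) ^ 2) := by
    rw [le_div_iff₀ (by positivity)]
    nlinarith
  have e8 : Real.log Z / (4 * (k : ℝ) ^ 2) = Real.log Z / (8 * (k : ℝ) ^ 2) +
      Real.log Z / (8 * (k : ℝ) ^ 2) := by
    field_simp
    ring
  have hfin : Real.log Z * (1 / (8 * (k : ℝ) ^ 2)) ≤ Real.log Z * ∑ p ∈ Pr v u, 1 / (p : ℝ) := by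
    have e9 : Real.log Z * (1 / (8 * (k : ℝ) ^ 2)) = Real.log Z / (8 * (k : ℝ) ^ 2) := by ring
    rw [e9]
    linarith
  exact le_of_mul_le_mul_left hfin hL

end Pool.Agent.Helper80.RS
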