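import Pool.Agent.Helper73.RS.St

/-! Module LRS of project RS: a large set is large in some residue class. -/

namespace Pool.Agent.Helper80.RS

open Pool.Agent.Helper73.RS
open Filter Topology

/-- the indicator function of a residue class -/
private noncomputable def gg (n j : ℕ) : ℕ → ℝ := ind {x : ℕ | x % n = j}

private lemma gg_bd (n j : ℕ) : Bd (gg n j) := Bd.ind _

private lemma gg_nonneg (n j x : ℕ) : 0 ≤ gg n j x := ind_nonneg _ _

private lemma gg_eq_one {n j x : ℕ} (h : x % n = j) : gg n j x = 1 := ind_of_mem h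

private lemma gg_eq_zero {n j x : ℕ} (h : x % n ≠ j) : gg n j x = 0 := ind_of_notMem h

private lemma gg_sum {n : ℕ} (hn : 1 ≤ n) (x : ℕ) : ∑ j ∈ Finset.range n, gg n j x = 1 := by
  rw [Finset.sum_eq_single (x % n)]
  · exact gg_eq_one rfl
  · intro b _ hb
    exact gg_eq_zero (fun h => hb h.symm)
  · intro h
    exact absurd (Finset.mem_range.2 (Nat.mod_lt x hn)) h

private lemma gg_succ {n i : ℕ} (hi : i + 1 < n) (x : ℕ) : gg n (i + 1) (x + 1) = gg n i x := by
  have hr : x % n < n := Nat.mod_lt x (by omega)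
  have h1 : (x + 1) % n = (x % n + 1) % n := by
    rw [Nat.add_mod, Nat.mod_eq_of_lt (show 1 < n by omega)]
  rcases Nat.lt_or_ge (x % n + 1) n with h | h
  · rw [Nat.mod_eq_of_lt h] at h1
    by_cases hx : x % n = i
    · rw [gg_eq_one hx, gg_eq_one (by rw [h1, hx])]
    · rw [gg_eq_zero hx, gg_eq_zero (by rw [h1]; omega)]
  · have h2 : x % n + 1 = n := by omega
    rw [h2, Nat.mod_self] at h1
    rw [gg_eq_zero (show x % n ≠ i by omega), gg_eq_zero (by rw [h1]; omega)]

private lemma gg_mean {μ : W} (hμ : IsMean μ) (hinv : Inv μ) {n : ℕ} (hn : 1 ≤ n) {j : ℕ}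
    (hj : j < n) : (n : ℝ) * μ (gg n j) = 1 := by
  have h0 : ∀ i, i < n → μ (gg n i) = μ (gg n 0) := by
    intro i
    induction i with
    | zero => intro _; rfl
    | succ i ih =>
      intro hi
      rw [← ih (by omega), ← hinv (gg n (i + 1)) (gg_bd _ _)]
      congr 1
      funext x
      exact gg_succ hi x
  have h1 : ∑ i ∈ Finset.range n, μ (gg n i) = 1 := by
    rw [← hμ.sum (Finset.range n) (fun a _ => gg_bd n a), ← hμ.one]
    congr 1
    funext x
    exact gg_sum hn x
  have h2 : ∑ i ∈ Finset.range n, μ (gg n i) = n * μ (gg n 0) := by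
    rw [Finset.sum_congr rfl (fun i hi => h0 i (Finset.mem_range.1 hi)), Finset.sum_const,
      Finset.card_range, nsmul_eq_mul]
  rw [h0 j hj, ← h2, h1]

theorem holds_LRS : StLRS := by
  intro n U hn hU
  obtain ⟨μ, hμ, hinv, hpos⟩ := hU
  have hbd : ∀ j, Bd (fun x => ind U x * gg n j x) := fun j => (Bd.ind U).mul (gg_bd n j)
  -- some residue class
  have hsum : μ (ind U) = ∑ j ∈ Finset.range n, μ (fun x => ind U x * gg n j x) := by
    rw [← hμ.sum (Finset.range n) (fun a _ => hbd a)]
    congr 1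
    funext x
    rw [← Finset.mul_sum, gg_sum hn, mul_one]
  obtain ⟨j, hj, hjpos⟩ : ∃ j ∈ Finset.range n, 0 < μ (fun x => ind U x * gg n j x) := by
    by_contra hcon
    push Not at hcon
    have h1 := Finset.sum_nonpos hcon
    rw [← hsum] at h1
    linarith
  have hjn : j < n := Finset.mem_range.1 hj
  refine ⟨j, hjn, ?_⟩
  have hb : ∀ {f : ℕ → ℝ}, Bd f → Bd (fun x => f (x / n) * gg n j x) := fun hf =>
    (hf.comp fun x => x / n).mul (gg_bd n j)
  have hn0 : (0 : ℝ) ≤ n := Nat.cast_nonneg n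
  obtain ⟨φ, hφ⟩ : ∃ φ : (ℕ → ℝ) → ℝ,
      ∀ f, φ f = (n : ℝ) * μ (fun x => f (x / n) * gg n j x) := ⟨_, fun _ => rfl⟩
  have hm : IsMean (ext φ) := by
    apply isMean_ext
    · intro f g hf hg
      rw [hφ, hφ, hφ, ← mul_add, ← hμ.add _ _ (hb hf) (hb hg)]
      congr 2
      funext x
      ring
    · intro c f hf
      rw [hφ, hφ, mul_left_comm, ← hμ.smul c _ (hb hf)]
      congr 2
      funext x
      ring
    · intro f hf h0
      rw [hφ]
      exact mul_nonneg hn0 (hμ.nonneg _ (hb hf) fun x => mul_nonneg (h0 _) (gg_nonneg n j x))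
    · rw [hφ]
      have h1 : (fun x => (fun _ : ℕ => (1 : ℝ)) (x / n) * gg n j x) = gg n j := by
        funext x
        simp
      rw [h1]
      exact gg_mean hμ hinv hn hjn
  refine ⟨ext φ, hm, ?_, ?_⟩
  · intro f hf
    rw [ext_apply φ (hf.comp fun x => x + 1), ext_apply φ hf, hφ, hφ]
    congr 1
    rw [← hinv.add (hb hf) n]
    congr 1
    funext x
    have h1 : (x + n) / n = x / n + 1 := Nat.add_div_right x (by omega)
    have h2 : gg n j (x + n) = gg n j x := by
      by_cases hx : x % n = j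
      · rw [gg_eq_one hx, gg_eq_one (by rw [Nat.add_mod_right, hx])]
      · rw [gg_eq_zero hx, gg_eq_zero (by rw [Nat.add_mod_right]; exact hx)]
    rw [h1, h2]
  · rw [ext_apply φ (Bd.ind _), hφ]
    have h1 : (fun x => ind {x | n * x + j ∈ U} (x / n) * gg n j x) =
        fun x => ind U x * gg n j x := by
      funext x
      by_cases hx : x % n = j
      · have h2 : n * (x / n) + j = x := by
          rw [← hx]
          exact Nat.div_add_mod x n
        by_cases hxU : x ∈ U
        · rw [ind_of_mem hxU, ind_of_mem (show x / n ∈ {x | n * x + j ∈ U} from by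
            rw [Set.mem_ofPred_eq, h2]; exact hxU)]
        · rw [ind_of_notMem hxU, ind_of_notMem (show x / n ∉ {x | n * x + j ∈ U} from by
            rw [Set.mem_ofPred_eq, h2]; exact hxU)]
      · rw [gg_eq_zero hx, mul_zero, mul_zero]
    rw [h1]
    have h3 : (0 : ℝ) < n := by exact_mod_cast hn
    exact mul_pos h3 hjpos

end Pool.Agent.Helper80.RS
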